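import Pool.Agent.Helper13.TR.StC

set_option autoImplicit false

namespace Pool.Agent.Helper37.TR

open Set Topology Pool.Agent.Helper13.TR

private theorem joined_side {A : Type} [TopologicalSpace A] {E F : Set A} (hE : IsClosed E)
    (hF : IsClosed F) (hEF : E ∪ F = univ) {x y : A} (h : JoinedIn (E ∩ F)ᶜ x y)
    (hx : x ∈ Eᶜ) : y ∈ Eᶜ := by
  obtain ⟨γ, hγ⟩ := h
  have hs : IsPreconnected (range γ) := isPreconnected_range γ.continuous
  have hdis : Disjoint Eᶜ Fᶜ := by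
    rw [Set.disjoint_iff]
    intro z hz
    have hz' : z ∈ E ∪ F := by rw [hEF]; exact mem_univ z
    rcases hz' with h1 | h1
    · exact hz.1 h1
    · exact hz.2 h1
  have hsub : range γ ⊆ Eᶜ ∪ Fᶜ := by
    rintro z ⟨t, rfl⟩
    have := hγ t
    rw [compl_inter] at this
    exact this
  have hne : (range γ ∩ Eᶜ).Nonempty := ⟨x, ⟨0, γ.source⟩, hx⟩
  have := hs.subset_left_of_subset_union hE.isOpen_compl hF.isOpen_compl hdis hsub hne
  exact this ⟨1, γ.target⟩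

theorem hDBL (hCUT : StCUT) (hCLO : StCLO) (hJOI : StJOI) (hSDA : StSDA) (hMON : StMON) :
    StDBL := by
  intro A _ _ A' _ hpc hG1 hbound a ha b hb hab
  obtain ⟨E, F, hE, hF, hEF, hEb, haF, hZ⟩ := hG1 a {b}ᶜ isOpen_compl_singleton hab
  obtain ⟨hJ1, -, -, -, -⟩ := hJOI A A'
  obtain ⟨-, hJ2, hJ3, -, -⟩ := hJOI A (E ∩ F)ᶜ
  obtain ⟨hS1, -, -, -, -⟩ := hSDA A
  obtain ⟨hM1, -, -, -, -, hM6⟩ := hMON A
  obtain ⟨e, heA, hbe⟩ := hJ1 a b (hpc.joinedIn a ha b hb)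
  have haE : a ∈ E := by
    have : a ∈ E ∪ F := by rw [hEF]; exact mem_univ a
    exact this.resolve_right haF
  have hbE : b ∉ E := fun h => hEb h rfl
  have hex : ∃ τ ∈ E ∩ F, e ∉ Nul {τ} 1 := by
    by_contra hcon
    push Not at hcon
    have h1 : e ∈ Nul ((ContinuousMap.id A) ⁻¹' (E ∩ F)) 1 := by
      refine hCUT A A (ContinuousMap.id A) (E ∩ F) 1 e hZ.1 ?_ ?_
      · intro y hy
        exact hcon y hy
      · intro y hy O hO hyO
        obtain ⟨E', F', h1, h2, h3, h4, h5, h6⟩ := hCLO A (E ∩ F) hZ y hy O hO hyO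
        refine ⟨E', F', h1, h2, h3, h4, h5, ?_⟩
        intro M _ hM
        have hM0 : M = ∅ := by
          rw [h6] at hM
          exact subset_empty_iff.mp hM
        rw [hM0]
        exact hM6 2
    have h2 : e ∈ Nul (E ∩ F) 1 := h1
    unfold Nul at h2
    rw [Submodule.mem_sup] at h2
    obtain ⟨ρ, hρ, z, ⟨β, rfl⟩, hz⟩ := h2
    have h3 : bd 0 e = bd 0 ρ := by
      rw [← hz, map_add, hS1 0 β, add_zero]
    have h4 : ev Eᶜ (bd 0 ρ) = 0 := by
      refine hJ2 Eᶜ ?_ ρ hρ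
      intro x y hxy
      exact ⟨joined_side hE hF hEF hxy, joined_side hE hF hEF hxy.symm⟩
    rw [← h3, hbe, map_sub, (hJ3 Eᶜ b).1 hbE, (hJ3 Eᶜ a).2 (fun h => h haE)] at h4
    norm_num at h4
  obtain ⟨τ, hτ, heτ⟩ := hex
  have hcN : ∀ x : Ch A 1, x ∈ cin ({τ} : Set A)ᶜ 1 → x ∈ Nul {τ} 1 := fun x hx =>
    Submodule.mem_sup_left hx
  refine ⟨τ, ?_, ?_, ?_, ?_⟩
  · by_contra hn
    apply heτ
    refine hcN e (hM1 A' _ 1 ?_ heA)
    intro z hz hzτ
    rw [mem_singleton_iff] at hzτ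
    exact hn (hzτ ▸ hz)
  · rintro rfl
    exact haF hτ.2
  · rintro rfl
    exact hbE hτ.1
  · intro hj
    obtain ⟨hK1, -, -, -, -⟩ := hJOI A (A' \ {τ})
    obtain ⟨r, hr, hbr⟩ := hK1 a b hj
    have hrA : r ∈ cin A' 1 := hM1 _ _ 1 sdiff_subset hr
    obtain ⟨e', he'⟩ := hbound (e - r) (Submodule.sub_mem _ heA hrA) (by
      rw [map_sub, hbe, hbr, sub_self])
    apply heτ
    have h5 : e = r + bd 1 e' := by rw [he']; abel
    rw [h5]
    refine Submodule.add_mem_sup (hM1 _ _ 1 ?_ hr) ⟨e', rfl⟩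
    intro z hz
    exact hz.2

end Pool.Agent.Helper37.TR
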